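import Mathlib

/-!
# Definitions used in the statement

Compact Riemann surfaces of genus at least two are written as quotients `Γ \ ℍ` of the upper half
plane by subgroups `Γ` of `SL(2, ℝ)`.
-/

open UpperHalfPlane Filter Topology MatrixGroups
open scoped ContDiff

noncomputable section

namespace Pool.Agent.Lib.MP_b9289b_nt

/-- Some compact subset of the upper half plane meets every orbit of `Γ`. -/
def Cocompact (Γ : Subgroup SL(2, ℝ)) : Prop :=
  ∃ K : Set ℍ, IsCompact K ∧ ∀ z : ℍ, ∃ γ ∈ Γ, γ • z ∈ K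

/-- Only `1` and `-1` in `Γ` have fixed points in the upper half plane. -/
def ActsFreely (Γ : Subgroup SL(2, ℝ)) : Prop :=
  ∀ γ ∈ Γ, ∀ z : ℍ, γ • z = z → γ = 1 ∨ γ = -1

/-- `Γ ≤ SL(2,ℝ)` is the uniformising group of a compact Riemann surface `Γ \ ℍ` (of genus at
least two): `Γ` is discrete, it has a compact set meeting all its orbits, and elements of `Γ`
with a fixed point are `1` or `-1`. -/
def IsSurfaceGroup (Γ : Subgroup SL(2, ℝ)) : Prop :=
  DiscreteTopology Γ ∧ Cocompact Γ ∧ ActsFreely Γ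

/-! ### The spectrum -/

/-- `f` is a smooth function on `ℍ` with `-y² (∂²f/∂x² + ∂²f/∂y²) = μ f`. -/
def IsEigen (μ : ℂ) (f : ℍ → ℂ) : Prop :=
  (∀ z : ℍ, ContDiffAt ℝ ∞ (↑ₕf) (z : ℂ)) ∧
    ∀ z : ℍ, -(z.im : ℂ) ^ 2 * Laplacian.laplacian (↑ₕf) (z : ℂ) = μ * f z

/-- `f` is an eigenfunction (or zero) of the hyperbolic Laplacian `-y² (∂²/∂x² + ∂²/∂y²)` on
`Γ \ ℍ` with eigenvalue `μ`. -/
def IsEigenfunction (Γ : Subgroup SL(2, ℝ)) (μ : ℂ) (f : ℍ → ℂ) : Prop :=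
  IsEigen μ f ∧ ∀ γ ∈ Γ, ∀ z : ℍ, f (γ • z) = f z

lemma IsEigen.add {μ : ℂ} {f g : ℍ → ℂ} (hf : IsEigen μ f) (hg : IsEigen μ g) :
    IsEigen μ (f + g) := by
  obtain ⟨hf, hf''⟩ := hf
  obtain ⟨hg, hg''⟩ := hg
  refine ⟨fun z => (hf z).add (hg z), fun z => ?_⟩
  have h1 : (↑ₕ(f + g)) = (↑ₕf) + (↑ₕg) := rfl
  have h2 : Laplacian.laplacian ((↑ₕf) + (↑ₕg)) (z : ℂ) =
      Laplacian.laplacian (↑ₕf) (z : ℂ) + Laplacian.laplacian (↑ₕg) (z : ℂ) :=
    ContDiffAt.laplacian_add ((hf z).of_le ENat.LEInfty.out) ((hg z).of_le ENat.LEInfty.out)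
  rw [h1, h2, mul_add, hf'' z, hg'' z, Pi.add_apply, mul_add]

lemma IsEigen.zero (μ : ℂ) : IsEigen μ 0 := by
  refine ⟨fun z => contDiffAt_const, fun z => ?_⟩
  have h1 : (↑ₕ(0 : ℍ → ℂ)) = fun _ => (0 : ℂ) := rfl
  rw [h1, InnerProductSpace.laplacian_const]
  simp

lemma IsEigen.smul_const {μ : ℂ} {f : ℍ → ℂ} (c : ℂ) (hf : IsEigen μ f) : IsEigen μ (c • f) := by
  obtain ⟨hf, hf''⟩ := hf
  refine ⟨fun z => (contDiffAt_const (c := c)).mul (hf z), fun z => ?_⟩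
  have h1 : (↑ₕ(c • f)) = c • (↑ₕf) := rfl
  have h2 : Laplacian.laplacian (c • (↑ₕf)) (z : ℂ) =
      c • Laplacian.laplacian (↑ₕf) (z : ℂ) :=
    InnerProductSpace.laplacian_smul c ((hf z).of_le ENat.LEInfty.out)
  rw [h1, h2, smul_eq_mul, Pi.smul_apply, smul_eq_mul]
  linear_combination c * hf'' z

lemma IsEigenfunction.add {Γ : Subgroup SL(2, ℝ)} {μ : ℂ} {f g : ℍ → ℂ}
    (hf : IsEigenfunction Γ μ f) (hg : IsEigenfunction Γ μ g) : IsEigenfunction Γ μ (f + g) :=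
  ⟨hf.1.add hg.1, fun γ hγ z => by simp [hf.2 γ hγ z, hg.2 γ hγ z]⟩

lemma IsEigenfunction.zero (Γ : Subgroup SL(2, ℝ)) (μ : ℂ) : IsEigenfunction Γ μ 0 :=
  ⟨IsEigen.zero μ, fun _ _ _ => rfl⟩

lemma IsEigenfunction.smul {Γ : Subgroup SL(2, ℝ)} {μ : ℂ} (c : ℂ) {f : ℍ → ℂ}
    (hf : IsEigenfunction Γ μ f) : IsEigenfunction Γ μ (c • f) :=
  ⟨hf.1.smul_const c, fun γ hγ z => by simp [hf.2 γ hγ z]⟩

/-- The eigenspace of the hyperbolic Laplacian on `Γ \ ℍ` with eigenvalue `μ`. -/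
def Eigenspace (Γ : Subgroup SL(2, ℝ)) (μ : ℂ) : Submodule ℂ (ℍ → ℂ) where
  carrier := {f | IsEigenfunction Γ μ f}
  add_mem' := IsEigenfunction.add
  zero_mem' := IsEigenfunction.zero Γ μ
  smul_mem' := IsEigenfunction.smul

/-- `Γ \ ℍ` and `Γ' \ ℍ` are isospectral: every `μ` is an eigenvalue of the two Laplacians with
the same multiplicity. -/
def Isospectral (Γ Γ' : Subgroup SL(2, ℝ)) : Prop :=
  ∀ μ : ℂ, Module.rank ℂ (Eigenspace Γ μ) = Module.rank ℂ (Eigenspace Γ' μ)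

/-! ### Function fields -/

/-- The function `f : ℍ → ℂ` is meromorphic. -/
def IsMero (f : ℍ → ℂ) : Prop := ∀ z : ℍ, MeromorphicAt (↑ₕf) (z : ℂ)

/-- `F` is (the class of) a `Γ`-invariant meromorphic function on `ℍ`. -/
def IsInvMero (Γ : Subgroup SL(2, ℝ)) (F : Germ (codiscrete ℍ) ℂ) : Prop :=
  ∃ f : ℍ → ℂ, IsMero f ∧ (∀ γ ∈ Γ, ∀ᶠ z in codiscrete ℍ, f (γ • z) = f z) ∧
    (f : Germ (codiscrete ℍ) ℂ) = F

namespace IsInvMero

variable {Γ : Subgroup SL(2, ℝ)} {F G : Germ (codiscrete ℍ) ℂ}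

lemma mul (hF : IsInvMero Γ F) (hG : IsInvMero Γ G) : IsInvMero Γ (F * G) := by
  obtain ⟨f, hf, hf', rfl⟩ := hF
  obtain ⟨g, hg, hg', rfl⟩ := hG
  refine ⟨f * g, fun z => (hf z).mul (hg z), fun γ hγ => ?_, rfl⟩
  filter_upwards [hf' γ hγ, hg' γ hγ] with z h1 h2
  simp [h1, h2]

lemma one : IsInvMero Γ 1 :=
  ⟨1, fun _ => MeromorphicAt.const 1 _, fun _ _ => Eventually.of_forall fun _ => rfl, rfl⟩

lemma add (hF : IsInvMero Γ F) (hG : IsInvMero Γ G) : IsInvMero Γ (F + G) := by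
  obtain ⟨f, hf, hf', rfl⟩ := hF
  obtain ⟨g, hg, hg', rfl⟩ := hG
  refine ⟨f + g, fun z => (hf z).add (hg z), fun γ hγ => ?_, rfl⟩
  filter_upwards [hf' γ hγ, hg' γ hγ] with z h1 h2
  simp [h1, h2]

lemma zero : IsInvMero Γ 0 :=
  ⟨0, fun _ => MeromorphicAt.const 0 _, fun _ _ => Eventually.of_forall fun _ => rfl, rfl⟩

lemma neg (hF : IsInvMero Γ F) : IsInvMero Γ (-F) := by
  obtain ⟨f, hf, hf', rfl⟩ := hF
  refine ⟨-f, fun z => (hf z).neg, fun γ hγ => ?_, rfl⟩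
  filter_upwards [hf' γ hγ] with z h1
  simp [h1]

end IsInvMero

/-- The function field of the compact Riemann surface `Γ \ ℍ`: the `Γ`-invariant meromorphic
functions on `ℍ`, where two functions are identified if they are equal outside a closed
discrete set. -/
def FunField (Γ : Subgroup SL(2, ℝ)) : Subring (Germ (codiscrete ℍ) ℂ) where
  carrier := {F | IsInvMero Γ F}
  mul_mem' := IsInvMero.mul
  one_mem' := IsInvMero.one
  add_mem' := IsInvMero.add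
  zero_mem' := IsInvMero.zero
  neg_mem' := IsInvMero.neg

/-- The constant function `c` on `ℍ`, up to equality outside a closed discrete set. -/
def constGerm (c : ℂ) : Germ (codiscrete ℍ) ℂ := ((fun _ => c : ℍ → ℂ) : Germ (codiscrete ℍ) ℂ)

lemma isInvMero_constGerm (Γ : Subgroup SL(2, ℝ)) (c : ℂ) : constGerm c ∈ FunField Γ :=
  ⟨fun _ => c, fun _ => MeromorphicAt.const c _, fun _ _ => Eventually.of_forall fun _ => rfl, rfl⟩

/-- The function field of the compact Riemann surface `Γ \ ℍ`, as a type. -/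
def FunctionField (Γ : Subgroup SL(2, ℝ)) : Type := FunField Γ

instance (Γ : Subgroup SL(2, ℝ)) : Ring (FunctionField Γ) :=
  (inferInstance : Ring (FunField Γ))

/-- The constant functions in the function field. -/
def FunField.const (Γ : Subgroup SL(2, ℝ)) (c : ℂ) : FunctionField Γ :=
  ⟨constGerm c, isInvMero_constGerm Γ c⟩

/-- The compact Riemann surface `Γ' \ ℍ` is the conjugate `X^σ` of `X = Γ \ ℍ`: there is an
isomorphism of the function field of `X` with the function field of `Γ' \ ℍ` which is `σ` on the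
constants, i.e. `Γ' \ ℍ` is the base change of the curve `Γ \ ℍ` along `σ`. -/
def IsGaloisConj (σ : ℂ ≃+* ℂ) (Γ Γ' : Subgroup SL(2, ℝ)) : Prop :=
  ∃ τ : FunctionField Γ ≃+* FunctionField Γ',
    ∀ c : ℂ, τ (FunField.const Γ c) = FunField.const Γ' (σ c)

/-! ### Jacobians -/

/-- `f dz` is a holomorphic differential on `Γ \ ℍ`, i.e. `f` is a cusp form of weight two. -/
def IsForm (Γ : Subgroup SL(2, ℝ)) (f : ℍ → ℂ) : Prop :=
  (∀ z : ℍ, DifferentiableAt ℂ (↑ₕf) (z : ℂ)) ∧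
    ∀ γ ∈ Γ, ∀ z : ℍ, f (γ • z) = denom γ z ^ 2 * f z

lemma IsForm.add {Γ : Subgroup SL(2, ℝ)} {f g : ℍ → ℂ} (hf : IsForm Γ f) (hg : IsForm Γ g) :
    IsForm Γ (f + g) := by
  obtain ⟨hf, hf'⟩ := hf
  obtain ⟨hg, hg'⟩ := hg
  refine ⟨fun z => (hf z).add (hg z), fun γ hγ z => ?_⟩
  rw [Pi.add_apply, Pi.add_apply, hf' γ hγ z, hg' γ hγ z, mul_add]

lemma IsForm.zero (Γ : Subgroup SL(2, ℝ)) : IsForm Γ 0 :=
  ⟨fun _ => differentiableAt_const _, fun _ _ _ => by simp⟩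

lemma IsForm.smul {Γ : Subgroup SL(2, ℝ)} (c : ℂ) {f : ℍ → ℂ} (hf : IsForm Γ f) :
    IsForm Γ (c • f) := by
  obtain ⟨hf, hf'⟩ := hf
  refine ⟨fun z => (differentiableAt_const c).mul (hf z), fun γ hγ z => ?_⟩
  rw [Pi.smul_apply, Pi.smul_apply, hf' γ hγ z, smul_eq_mul, smul_eq_mul]
  ring

/-- The space of holomorphic differentials `f dz` on `Γ \ ℍ`. -/
def Omega (Γ : Subgroup SL(2, ℝ)) : Submodule ℂ (ℍ → ℂ) where
  carrier := {f | IsForm Γ f}
  add_mem' := IsForm.add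
  zero_mem' := IsForm.zero Γ
  smul_mem' := IsForm.smul

/-- The straight path from `i` to `γ i` in the upper half plane. -/
def seg (γ : SL(2, ℝ)) (t : ℝ) : ℂ := (1 - t) * Complex.I + t * ((γ • I : ℍ) : ℂ)

/-- The integral of `f dz` over the segment from `i` to `γ i`, i.e. over the loop of `γ` on
`Γ \ ℍ`. -/
def period (f : ℍ → ℂ) (γ : SL(2, ℝ)) : ℂ :=
  ∫ t in (0 : ℝ)..1, (↑ₕf) (seg γ t) * (((γ • I : ℍ) : ℂ) - Complex.I)

lemma seg_im_pos (γ : SL(2, ℝ)) {t : ℝ} (h0 : 0 ≤ t) (h1 : t ≤ 1) : 0 < (seg γ t).im := by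
  have h : (seg γ t).im = (1 - t) + t * (γ • I : ℍ).im := by
    simp [seg]
  rw [h]
  have h2 := (γ • I : ℍ).im_pos
  rcases eq_or_lt_of_le h0 with h3 | h3
  · subst h3; simp
  · have := mul_pos h3 h2
    linarith

lemma continuous_seg (γ : SL(2, ℝ)) : Continuous (seg γ) := by
  unfold seg
  fun_prop

lemma intervalIntegrable_period {f : ℍ → ℂ} (hf : ∀ z : ℍ, DifferentiableAt ℂ (↑ₕf) (z : ℂ))
    (γ : SL(2, ℝ)) : IntervalIntegrable
      (fun t : ℝ => (↑ₕf) (seg γ t) * (((γ • I : ℍ) : ℂ) - Complex.I)) MeasureTheory.volume 0 1 := by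
  apply ContinuousOn.intervalIntegrable
  refine ContinuousOn.mul (fun t ht => ?_) continuousOn_const
  rw [Set.uIcc_of_le zero_le_one] at ht
  have h1 := (hf ⟨seg γ t, seg_im_pos γ ht.1 ht.2⟩).continuousAt
  exact (ContinuousAt.comp (f := seg γ) h1 (continuous_seg γ).continuousAt).continuousWithinAt

lemma period_add' {f g : ℍ → ℂ} (hf : ∀ z : ℍ, DifferentiableAt ℂ (↑ₕf) (z : ℂ))
    (hg : ∀ z : ℍ, DifferentiableAt ℂ (↑ₕg) (z : ℂ)) (γ : SL(2, ℝ)) :
    period (f + g) γ = period f γ + period g γ := by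
  unfold period
  rw [← intervalIntegral.integral_add (intervalIntegrable_period hf γ)
    (intervalIntegrable_period hg γ)]
  congr 1
  funext t
  simp [add_mul]

lemma period_smul' (c : ℂ) (f : ℍ → ℂ) (γ : SL(2, ℝ)) : period (c • f) γ = c * period f γ := by
  unfold period
  rw [← intervalIntegral.integral_const_mul]
  congr 1
  funext t
  simp [mul_assoc]

/-- The dual of the space of holomorphic differentials. -/
def OmegaDual (Γ : Subgroup SL(2, ℝ)) : Type := Module.Dual ℂ (Omega Γ)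

instance (Γ : Subgroup SL(2, ℝ)) : AddCommGroup (OmegaDual Γ) :=
  (inferInstance : AddCommGroup (Module.Dual ℂ (Omega Γ)))

instance (Γ : Subgroup SL(2, ℝ)) : Module ℂ (OmegaDual Γ) :=
  (inferInstance : Module ℂ (Module.Dual ℂ (Omega Γ)))

/-- The integration of differentials over the loop given by `γ`. -/
def periodFunctional (Γ : Subgroup SL(2, ℝ)) (γ : SL(2, ℝ)) : OmegaDual Γ where
  toFun f := period f.1 γ
  map_add' f g := period_add' f.2.1 g.2.1 γ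
  map_smul' c f := period_smul' c f.1 γ

/-- The period lattice of `Γ \ ℍ` in the dual of the space of holomorphic differentials. -/
def PeriodLattice (Γ : Subgroup SL(2, ℝ)) : AddSubgroup (OmegaDual Γ) :=
  AddSubgroup.closure {ℓ | ∃ γ ∈ Γ, ℓ = periodFunctional Γ γ}

/-- The complex linear map `F` induces an isogeny of the Jacobians of `Γ \ ℍ` and `Γ' \ ℍ` (the
quotients of `OmegaDual Γ` and `OmegaDual Γ'` by the period lattices): it maps the period lattice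
into the period lattice, and the induced homomorphism of the quotients is surjective and has a
finite kernel. -/
def InducesIsogeny {Γ Γ' : Subgroup SL(2, ℝ)} (F : OmegaDual Γ →ₗ[ℂ] OmegaDual Γ') : Prop :=
  (∀ ℓ ∈ PeriodLattice Γ, F ℓ ∈ PeriodLattice Γ') ∧
  (∀ y, ∃ x, y - F x ∈ PeriodLattice Γ') ∧
  ∃ T : Set (OmegaDual Γ), T.Finite ∧
    ∀ x, F x ∈ PeriodLattice Γ' → ∃ y ∈ T, x - y ∈ PeriodLattice Γ

/-- The Jacobians of `Γ \ ℍ` and `Γ' \ ℍ` are isogenous: there is a surjective homomorphism with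
finite kernel of the first one to the second one. -/
def JacobianIsogenous (Γ Γ' : Subgroup SL(2, ℝ)) : Prop :=
  ∃ F : OmegaDual Γ →ₗ[ℂ] OmegaDual Γ', InducesIsogeny F

/-- The main theorem. -/
def MainStatement : Prop :=
  ∃ ΓX ΓY : Subgroup SL(2, ℝ), IsSurfaceGroup ΓX ∧ IsSurfaceGroup ΓY ∧ Isospectral ΓX ΓY ∧
    ∀ (σ : ℂ ≃+* ℂ) (Γ' : Subgroup SL(2, ℝ)), IsSurfaceGroup Γ' → IsGaloisConj σ ΓX Γ' →
      ¬ JacobianIsogenous ΓY Γ' ∧ ¬ JacobianIsogenous Γ' ΓY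

end Pool.Agent.Lib.MP_b9289b_nt
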